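import Pool.Agent.U192.SP.Main
import Pool.Agent.W619.Y.Unir
import Pool.Agent.Y174.BDefs

/-!
Uniruled varieties have no sections of `m K + A` for large `m`.
-/

set_option autoImplicit false
set_option linter.overlappingInstances false
set_option linter.unusedSectionVars false

open FF Pool.Agent.W602.GT Pool.Agent.W619.PQ
open Pool.Agent.W619.TW (HasIndep IsSec Dom)
open Pool.Agent.Y174 (PairSec)

namespace Pool.Agent.U192.SP

theorem isSec_of_pair {K : Type} [Field K] [Algebra ℂ K] {n : ℕ} {S : Finset K} {m : ℕ}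
    {ω : (Fin n → Derivation ℂ K K) → K} (h : PairSec ℂ K n (fun _ => 0) S m 1 ω) :
    IsSec ℂ K n (fun _ => False) S m 1 ω := by
  refine ⟨h.1, fun v hv _ D hD => ?_, fun v hv hf => hf.elim⟩
  rcases h.2 v hv D hD with h1 | ⟨s, hs, hs0, h1⟩
  · exact Or.inl h1
  · refine Or.inr ⟨s, hs, hs0, ?_⟩
    rw [mul_zero, sub_zero] at h1
    exact_mod_cast h1

/-- a uniruled variety has a canonical divisor which is not pseudo-effective -/
theorem neg_of_uniruled {K : Type} [Field K] [Algebra ℂ K] [Algebra.EssFiniteType ℂ K] {n : ℕ}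
    (hn : Algebra.trdeg ℂ K = n) (h : IsUniruled ℂ K n) (S : Finset K) :
    ∃ m0 : ℕ, ∀ m : ℕ, m0 ≤ m → ¬ HasIndep ℂ K n 1 (PairSec ℂ K n (fun _ => 0) S m 1) := by
  obtain ⟨m0, hm0⟩ := (Pool.Agent.W619.Y.uniruled_neg n hn h).2 S
  refine ⟨m0, fun m hm hi => hm0 m hm ?_⟩
  obtain ⟨ω, hω, hs⟩ := hi
  exact ⟨ω, hω, fun l => isSec_of_pair (hs l)⟩

end Pool.Agent.U192.SP
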