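import Pool.Agent.U192.SP.Sharp
import Pool.Agent.U192.TD.Uni
import Pool.Agent.W619.Y.Unir

/-!
The constant in the norm inequality: double coverings of the projective line.
-/

set_option autoImplicit false
set_option linter.overlappingInstances false
set_option linter.unusedSectionVars false

open FF Pool.Agent.W602.GT Pool.Agent.W603.LV Pool.Agent.Y172 Pool.Agent.W619.PQ

namespace Pool.Agent.U192.SP

theorem ess_ratFunc : Algebra.EssFiniteType ℂ (RatFunc ℂ) := by
  have hFF : IsFF ℂ (RatFunc ℂ) := by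
    refine IsFF.of_finite (f := (RatFunc.X : RatFunc ℂ)) RatFunc.transcendental_X ?_
    rw [RatFunc.adjoin_X]
    exact Module.Finite.of_surjective (Algebra.linearMap (⊤ : IntermediateField ℂ (RatFunc ℂ))
      (RatFunc ℂ)) fun z => ⟨⟨z, trivial⟩, rfl⟩
  exact hFF.ess

theorem trdeg_ratFunc : Algebra.trdeg ℂ (RatFunc ℂ) = (1 : ℕ) := by
  have h : Algebra.trdeg ℂ ℂ = (0 : ℕ) := by
    have h0 : Algebra.trdeg ℂ ℂ = 0 := trdeg_eq_zero
    simpa using h0
  exact Pool.Agent.R885.trdeg_ratFunc h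

theorem uniruled_ratFunc : IsUniruled ℂ (RatFunc ℂ) 1 := by
  have h : Algebra.trdeg ℂ ℂ = (0 : ℕ) := by
    have h0 : Algebra.trdeg ℂ ℂ = 0 := trdeg_eq_zero
    simpa using h0
  refine ⟨ℂ, inferInstance, inferInstance, inferInstance, ?_, ⟨AlgHom.id ℂ _⟩⟩
  rw [h]
  norm_num

/-- a square root generates a vector space of dimension at most two -/
theorem span_pair {K A : Type} [Field K] [Field A] [Algebra K A] {u : A} {r : K}
    (hu : u ^ 2 = algebraMap K A r) (w : IntermediateField.adjoin K {u}) (hw : (w : A) = u) :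
    Submodule.span K ({1, w} : Set (IntermediateField.adjoin K {u})) = ⊤ := by
  classical
  have hint : IsIntegral K u := by
    refine ⟨Polynomial.X ^ 2 - Polynomial.C r, Polynomial.monic_X_pow_sub_C r two_ne_zero, ?_⟩
    rw [Polynomial.eval₂_sub, Polynomial.eval₂_pow, Polynomial.eval₂_X, Polynomial.eval₂_C, hu,
      sub_self]
  rw [eq_top_iff]
  rintro z -
  have hz : (z : A) ∈ (IntermediateField.adjoin K {u}).toSubalgebra := z.2
  rw [IntermediateField.adjoin_simple_toSubalgebra_of_isAlgebraic hint.isAlgebraic,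
    Algebra.adjoin_singleton_eq_range_aeval] at hz
  obtain ⟨p, hp⟩ := hz
  have hmon : (Polynomial.X ^ 2 - Polynomial.C r).Monic := Polynomial.monic_X_pow_sub_C r two_ne_zero
  obtain ⟨g, hg⟩ : ∃ g, g = p %ₘ (Polynomial.X ^ 2 - Polynomial.C r) := ⟨_, rfl⟩
  have h1 : Polynomial.aeval u p = Polynomial.aeval u g := by
    conv_lhs => rw [← Polynomial.modByMonic_add_div p (Polynomial.X ^ 2 - Polynomial.C r)]
    rw [map_add, map_mul, map_sub, map_pow, Polynomial.aeval_X, Polynomial.aeval_C, hu, sub_self,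
      zero_mul, add_zero, hg]
  have h2 : g.degree < 2 := by
    rw [hg]
    refine lt_of_lt_of_eq (Polynomial.degree_modByMonic_lt p hmon) ?_
    exact Polynomial.degree_X_pow_sub_C two_pos r
  have h3 : g = Polynomial.C (g.coeff 1) * Polynomial.X + Polynomial.C (g.coeff 0) :=
    Polynomial.eq_X_add_C_of_degree_le_one (Order.le_of_lt_succ (by exact_mod_cast h2))
  have h4 : z = g.coeff 0 • (1 : IntermediateField.adjoin K {u}) + g.coeff 1 • w := by
    apply Subtype.ext
    rw [IntermediateField.coe_add, IntermediateField.coe_smul, IntermediateField.coe_smul, hw,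
      IntermediateField.coe_one]
    have h5 : (z : A) = Polynomial.aeval u g := by
      rw [← h1]
      exact hp.symm
    rw [h5, h3]
    simp only [map_add, map_mul, Polynomial.aeval_C, Polynomial.aeval_X, Polynomial.coeff_add,
      Polynomial.coeff_C_mul, Polynomial.coeff_X_one, Polynomial.coeff_C_zero,
      Polynomial.coeff_X_zero, Algebra.smul_def, mul_one]
    simp [Polynomial.coeff_C]
    ring
  rw [h4]
  exact Submodule.add_mem _
    (Submodule.smul_mem _ _ (Submodule.subset_span (Set.mem_insert _ _)))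
    (Submodule.smul_mem _ _ (Submodule.subset_span (Set.mem_insert_of_mem _ rfl)))

/-- **The sharpness.** -/
theorem sharp (c : ℝ) (hc : c < 2) : ∃ (L : Type) (_ : Field L) (_ : Algebra ℂ L)
    (_ : Algebra (RatFunc ℂ) L), IsScalarTower ℂ (RatFunc ℂ) L ∧
    FiniteDimensional (RatFunc ℂ) L ∧ Module.finrank (RatFunc ℂ) L ≤ 2 ∧
    ∃ (u : L) (m : ℕ) (θ : (Fin 1 → Derivation ℂ L L) → L),
      Submodule.span (RatFunc ℂ) ({1, u} : Set L) = ⊤ ∧ 1 ≤ m ∧ IsPluri m θ ∧ θ ≠ 0 ∧
      ∀ (Q : Place ℂ L) (G : Fin 1 → Derivation ℂ L L), (∀ i, DerReg Q (G i)) → θ G = 0 ∨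
        c * m * ((-Q.ord u).toNat : ℝ) ≤ Q.ord (θ G) := by
  classical
  obtain ⟨N, hN⟩ := exists_nat_gt (4 / (2 - c))
  have hc2 : 0 < 2 - c := by linarith
  have hNpos : (0 : ℝ) < N := lt_trans (div_pos (by norm_num) hc2) hN
  have hN1 : 1 ≤ N := by
    rw [Nat.one_le_iff_ne_zero]
    rintro rfl
    simp at hNpos
  have hN2 : c * N ≤ 2 * (N - 2) := by
    rw [div_lt_iff₀ hc2] at hN
    linarith
  let K := RatFunc ℂ
  let A := AlgebraicClosure K
  obtain ⟨x0, hx0⟩ : ∃ x : K, x = RatFunc.X := ⟨_, rfl⟩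
  have htr0 : Transcendental ℂ x0 := by
    rw [hx0]
    exact RatFunc.transcendental_X
  obtain ⟨r, hr⟩ : ∃ r : K, r = (x0 ^ N + 1) / (x0 ^ N - 1) := ⟨_, rfl⟩
  obtain ⟨v, hv⟩ := IsAlgClosed.exists_pow_nat_eq (algebraMap K A r) two_pos
  have hvint : IsIntegral K v := by
    refine ⟨Polynomial.X ^ 2 - Polynomial.C r, Polynomial.monic_X_pow_sub_C r two_ne_zero, ?_⟩
    rw [Polynomial.eval₂_sub, Polynomial.eval₂_pow, Polynomial.eval₂_X, Polynomial.eval₂_C, hv,
      sub_self]
  let L := IntermediateField.adjoin K {v}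
  have hfin : FiniteDimensional K L := IntermediateField.adjoin.finiteDimensional hvint
  obtain ⟨u, hu⟩ : ∃ u : L, (u : A) = v := ⟨⟨v, IntermediateField.mem_adjoin_simple_self K v⟩, rfl⟩
  have hspan : Submodule.span K ({1, u} : Set L) = ⊤ := span_pair hv u hu
  obtain ⟨x, hx⟩ : ∃ x : L, x = algebraMap K L x0 := ⟨_, rfl⟩
  have htr : Transcendental ℂ x := by
    rw [hx]
    exact fun h => htr0 ((isAlgebraic_algebraMap_iff (algebraMap K L).injective).1 h)
  have hne : ∀ c : ℂ, x ^ N - algebraMap ℂ L c ≠ 0 := by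
    intro c h
    refine htr ⟨Polynomial.X ^ N - Polynomial.C c, Polynomial.X_pow_sub_C_ne_zero hN1 c, ?_⟩
    rw [map_sub, map_pow, Polynomial.aeval_X, Polynomial.aeval_C]
    exact h
  have ha0 : x ^ N - 1 ≠ 0 := by
    have := hne 1
    rwa [map_one] at this
  have hb0 : x ^ N + 1 ≠ 0 := by
    have := hne (-1)
    rwa [map_neg, map_one, sub_neg_eq_add] at this
  have hxne : x ≠ 0 := by
    rintro h
    apply htr
    rw [h]
    exact isAlgebraic_zero
  have hrel : u ^ 2 * (x ^ N - 1) = x ^ N + 1 := by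
    have h1 : u ^ 2 = algebraMap K L r := by
      apply Subtype.ext
      rw [IntermediateField.coe_pow, hu, hv]
      rfl
    rw [h1, hr, map_div₀, map_add, map_sub, map_pow, map_one, ← hx, div_mul_cancel₀ _ ha0]
  have hu0 : u ≠ 0 := by
    rintro rfl
    apply hb0
    rw [← hrel]
    ring
  obtain ⟨D, hD⟩ := Pool.Agent.W619.Y.exists_der htr
  refine ⟨L, inferInstance, inferInstance, inferInstance, inferInstance, hfin, ?_, u, N,
    fun G => ((x ^ N - 1) ^ 2)⁻¹ * (G 0 x / u) ^ N, hspan, hN1, ?_, ?_, ?_⟩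
  · have h1 := finrank_span_finset_le_card (R := K) (M := L) ({1, u} : Finset L)
    have h2 : Module.finrank K L ≤ ({1, u} : Finset L).card := by
      have h3 : Submodule.span K ((({1, u} : Finset L) : Finset L) : Set L) = ⊤ := by
        rw [Finset.coe_insert, Finset.coe_singleton]
        exact hspan
      rw [Set.finrank, h3, finrank_top] at h1
      exact h1
    exact h2.trans Finset.card_le_two
  · intro B G
    change ((x ^ N - 1) ^ 2)⁻¹ * ((∑ j, B 0 j • G j) x / u) ^ N =
      B.det ^ N * (((x ^ N - 1) ^ 2)⁻¹ * (G 0 x / u) ^ N)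
    have h1 : (∑ j, B 0 j • G j) = B 0 0 • G 0 := Fin.sum_univ_one _
    rw [h1, Matrix.det_fin_one, Derivation.smul_apply, smul_eq_mul, mul_div_assoc, mul_pow]
    ring
  · intro h
    have h1 := congrFun h fun _ => D
    simp only [hD, Pi.zero_apply] at h1
    exact mul_ne_zero (inv_ne_zero (pow_ne_zero _ ha0))
      (pow_ne_zero _ (div_ne_zero one_ne_zero hu0)) h1
  · intro Q G hG
    by_cases h0 : G 0 x = 0
    · left
      simp only [h0, zero_div]
      rw [zero_pow (by omega), mul_zero]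
    right
    have h1 := ord_est hN1 ha0 hb0 hxne hrel Q (hG 0) h0
    have h2 : (2 * ((N : ℝ) - 2)) * (((-Q.ord u).toNat : ℤ) : ℝ) ≤
        Q.ord (((x ^ N - 1) ^ 2)⁻¹ * (G 0 x / u) ^ N) := by
      exact_mod_cast h1
    refine le_trans ?_ h2
    rw [Int.cast_natCast]
    exact mul_le_mul_of_nonneg_right hN2 (Nat.cast_nonneg _)

end Pool.Agent.U192.SP
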