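import Pool.Agent.U192.PE.Kod
import Pool.Agent.U192.PB.Adic

/-!
Norms of pluricanonical forms relative to a linear system which separates the points of the general
fibre.
-/

set_option autoImplicit false
set_option linter.overlappingInstances false
set_option linter.unusedSectionVars false

open FF Pool.Agent.W602.GT Pool.Agent.W603.LV Pool.Agent.W619.PQ Pool.Agent.Y172
open Pool.Agent.W619.TW (HasIndep)
open Pool.Agent.Y174 (PairSec PairKod PairNum IsPull IsPullFib LiesOn)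

namespace Pool.Agent.U192.SP

open Pool.Agent.U192.PE (RegS indep_of_norm kod_of_regS)

variable {K L : Type} [Field K] [Field L] [Algebra ℂ K] [Algebra ℂ L]
  [Algebra K L] [IsScalarTower ℂ K L] [FiniteDimensional K L]
  [Algebra.EssFiniteType ℂ K] [Algebra.EssFiniteType ℂ L]

/-- the regularity relative to a basis contained in `T` -/
theorem regS_of_sys {T : Finset L} {S : Finset L} {dd : ℕ} {f : Fin dd → L}
    (hf : ∀ j, f j ∈ T) (hf0 : ∀ j, f j ≠ 0)
    {δ : Place ℂ K → ℝ} {n m : ℕ} {θ : (Fin n → Derivation ℂ L L) → L}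
    (hpos : ∀ (P : Place ℂ K) (Q : Place ℂ L) (e : ℕ), Over Q P e → Divisorial n Q →
      ∀ G : Fin n → Derivation ℂ L L, (∀ i, DerReg Q (G i)) → θ G = 0 ∨ ∃ s ∈ S, s ≠ 0 ∧
        ∀ t ∈ T, t ≠ 0 → (Q.ord s : ℝ) ≤ Q.ord (θ G) + 2 * m * Q.ord t + m * e * δ P) :
    RegS δ L n m S (fun j => algebraMap L L (f j)) θ := by
  intro P Q e hQ hQd c hc G hG
  rcases hpos P Q e hQ hQd G hG with h | ⟨s, hs, hs0, h⟩
  · exact Or.inl h
  refine Or.inr ⟨s, hs, hs0, fun j => ?_⟩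
  obtain ⟨π, -, hπ⟩ := Q.surj
  have h2 := hc π
  rw [Algebra.algebraMap_self_apply, hπ] at h2
  have h3 : c = 1 := Nat.dvd_one.1 (by exact_mod_cast h2)
  have h4 := h (f j) (hf j) (hf0 j)
  rw [h3]
  simpa using h4

/-- **The norm inequality for a linear system which separates the general fibre.** -/
theorem norm_ineq_sys (T : Finset L) (hT : Submodule.span K (T : Set L) = ⊤) (S : Finset L)
    (hS : ∃ s ∈ S, s ≠ 0) :
    ∃ Z : Finset K, (S = {1} → Z = {1}) ∧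
    ∀ (δ : Place ℂ K → ℝ) (n m N : ℕ), Algebra.trdeg ℂ L = n →
    ∀ θ : Fin N → (Fin n → Derivation ℂ L L) → L, (∀ l, IsPluri m (θ l)) →
    (∀ l, ∀ (P : Place ℂ K) (Q : Place ℂ L) (e : ℕ), Over Q P e → Divisorial n Q →
      ∀ G : Fin n → Derivation ℂ L L, (∀ i, DerReg Q (G i)) → θ l G = 0 ∨ ∃ s ∈ S, s ≠ 0 ∧
        ∀ t ∈ T, t ≠ 0 → (Q.ord s : ℝ) ≤ Q.ord (θ l G) + 2 * m * Q.ord t + m * e * δ P) →
    LinearIndependent ℂ θ →
    HasIndep ℂ K n N (PairSec ℂ K n δ Z (m * Module.finrank K L) 1) := by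
  obtain ⟨dd, f, hf⟩ := Pool.Agent.U192.PB.exists_basis_mem (K := K) (T : Set L) hT.ge
  obtain ⟨Z, hZS, hZ⟩ := indep_of_norm (K := K) (M := L) (L := L) f S hS
  exact ⟨Z, hZS, fun δ n m N hn θ hθ hpos hli => hZ δ n m N hn θ hθ
    (fun l => regS_of_sys hf (fun j => f.ne_zero j) (hpos l)) hli⟩

/-- **The Kodaira dimension, for a linear system which separates the general fibre.** -/
theorem kod_sys (T : Finset L) (hT : Submodule.span K (T : Set L) = ⊤)
    {δ : Place ℂ K → ℝ} {n m a : ℕ} (hm : 1 ≤ m) (hn : Algebra.trdeg ℂ L = n)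
    {θ : Fin (a + 1) → (Fin n → Derivation ℂ L L) → L} (hθ : ∀ l, IsPluri m (θ l))
    (hpos : ∀ l, ∀ (P : Place ℂ K) (Q : Place ℂ L) (e : ℕ), Over Q P e → Divisorial n Q →
      ∀ G : Fin n → Derivation ℂ L L, (∀ i, DerReg Q (G i)) → θ l G = 0 ∨
        ∀ t ∈ T, t ≠ 0 → (0 : ℝ) ≤ Q.ord (θ l G) + 2 * m * Q.ord t + m * e * δ P)
    {D0 : Fin n → Derivation ℂ L L} (hD0 : θ 0 D0 ≠ 0)
    (hind : AlgebraicIndependent ℂ fun j : Fin a => θ j.succ D0 / θ 0 D0) :
    PairKod ℂ K n δ a := by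
  obtain ⟨dd, f, hf⟩ := Pool.Agent.U192.PB.exists_basis_mem (K := K) (T : Set L) hT.ge
  refine kod_of_regS (K := K) (M := L) (L := L) f hm hn hθ (fun l => ?_) hD0 hind
  refine regS_of_sys hf (fun j => f.ne_zero j) fun P Q e hQ hQd G hG => ?_
  rcases hpos l P Q e hQ hQd G hG with h | h
  · exact Or.inl h
  refine Or.inr ⟨1, Finset.mem_singleton_self _, one_ne_zero, fun t ht ht0 => ?_⟩
  rw [Q.ord_one, Int.cast_zero]
  exact h t ht ht0

end Pool.Agent.U192.SP
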