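import Pool.Agent.U192.PE.Kod
import Pool.Agent.W619.Y.Loc

/-!
The curves `u ^ 2 (x ^ N - 1) = x ^ N + 1`.
-/

set_option autoImplicit false
set_option linter.overlappingInstances false
set_option linter.unusedSectionVars false

open FF Pool.Agent.W602.GT Pool.Agent.W603.LV Pool.Agent.Y172

namespace Pool.Agent.U192.SP

section

variable {L : Type} [Field L] [Algebra ℂ L]

/-- the orders of the form `(x ^ N - 1) ^ (-2) (dx / u) ^ N` -/
theorem ord_est {x u : L} {N : ℕ} (hN : 1 ≤ N) (ha0 : x ^ N - 1 ≠ 0) (hb0 : x ^ N + 1 ≠ 0)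
    (hx0 : x ≠ 0) (hu : u ^ 2 * (x ^ N - 1) = x ^ N + 1) (Q : Place ℂ L) {G : Derivation ℂ L L}
    (hG : DerReg Q G) (hGx : G x ≠ 0) :
    2 * ((N : ℤ) - 2) * ((-Q.ord u).toNat : ℤ) ≤
      Q.ord (((x ^ N - 1) ^ 2)⁻¹ * (G x / u) ^ N) := by
  have hc : CharZero L := charZero_of_injective_algebraMap (algebraMap ℂ L).injective
  have hN0 : (N : L) ≠ 0 := by
    rw [Nat.cast_ne_zero]
    omega
  obtain ⟨a, ha⟩ : ∃ a, a = x ^ N - 1 := ⟨_, rfl⟩
  obtain ⟨b, hb⟩ : ∃ b, b = x ^ N + 1 := ⟨_, rfl⟩
  rw [← ha] at ha0 hu ⊢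
  rw [← hb] at hb0 hu
  have hab : b = a + 2 := by
    rw [ha, hb]
    ring
  have hu0 : u ≠ 0 := by
    rintro rfl
    apply hb0
    rw [← hu]
    ring
  have hou : 2 * Q.ord u + Q.ord a = Q.ord b := by
    rw [← hu, Q.ord_mul (pow_ne_zero _ hu0) ha0, Q.ord_pow]
    push_cast
    ring
  -- constants
  have h20 : (2 : L) ≠ 0 := two_ne_zero
  have h2 : Q.ord (2 : L) = 0 := by
    have := Q.ord_const (c := (2 : ℂ)) two_ne_zero
    rwa [map_ofNat] at this
  have hNo : Q.ord (N : L) = 0 := by
    have := Q.ord_const (c := (N : ℂ)) (by rw [Nat.cast_ne_zero]; omega)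
    rwa [map_natCast] at this
  -- the derivative
  have hder : (N : L) * x ^ (N - 1) * G x = -(u * G u) * a ^ 2 := by
    have h1 : G (u ^ 2 * a) = G b := by rw [hu]
    have h3 : G a = (N : L) * x ^ (N - 1) * G x := by
      rw [ha, map_sub, G.map_one_eq_zero, sub_zero, G.leibniz_pow, nsmul_eq_mul, smul_eq_mul,
        mul_assoc]
    have h4 : G b = (N : L) * x ^ (N - 1) * G x := by
      rw [hb, map_add, G.map_one_eq_zero, add_zero, G.leibniz_pow, nsmul_eq_mul, smul_eq_mul,
        mul_assoc]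
    rw [G.leibniz, G.leibniz_pow, h3, h4] at h1
    simp only [smul_eq_mul, nsmul_eq_mul] at h1
    push_cast at h1
    have h5 : u ^ 2 * a = a + 2 := by rw [hu, hab]
    simp only [Nat.add_one_sub_one, pow_one] at h1
    linear_combination ((a : L) / 2) * h1 - ((N : L) * x ^ (N - 1) * G x / 2) * h5
  have hθ0 : G x / u ≠ 0 := div_ne_zero hGx hu0
  rw [Q.ord_mul (inv_ne_zero (pow_ne_zero _ ha0)) (pow_ne_zero _ hθ0), Q.ord_inv, Q.ord_pow,
    Q.ord_pow, Q.ord_div hGx hu0]
  push_cast
  have hNpos : (1 : ℤ) ≤ N := by exact_mod_cast hN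
  -- the order of `G x` in terms of the one of `G u`
  have hGu : G u ≠ 0 := by
    intro h
    rw [h, mul_zero, neg_zero, zero_mul] at hder
    exact mul_ne_zero (mul_ne_zero hN0 (pow_ne_zero _ hx0)) hGx hder
  have hoG : ((N - 1 : ℕ) : ℤ) * Q.ord x + Q.ord (G x) = Q.ord u + Q.ord (G u) + 2 * Q.ord a := by
    have h1 := congrArg Q.ord hder
    rw [Q.ord_mul (mul_ne_zero hN0 (pow_ne_zero _ hx0)) hGx,
      Q.ord_mul hN0 (pow_ne_zero _ hx0), Q.ord_pow, hNo,
      Q.ord_mul (neg_ne_zero.2 (mul_ne_zero hu0 hGu)) (pow_ne_zero _ ha0), Q.ord_neg,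
      Q.ord_mul hu0 hGu, Q.ord_pow] at h1
    push_cast at h1 ⊢
    linarith
  rcases lt_trichotomy (Q.ord a) 0 with hα | hα | hα
  · -- infinity
    have h1 : Q.ord x < 0 := by
      by_contra hcon
      push Not at hcon
      have h3 : Q.Reg a := by
        rw [ha, sub_eq_add_neg]
        refine Q.reg_add (Or.inr ?_) (Q.reg_neg Q.reg_one)
        rw [Q.ord_pow]
        positivity
      have h4 := (Q.reg_iff ha0).1 h3
      omega
    have h3 : Q.ord a = N * Q.ord x := by
      have h4 := (Q.ord_add_eq (f := x ^ N) (g := (-1 : L)) (pow_ne_zero _ hx0)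
        (neg_ne_zero.2 one_ne_zero) (by
          rw [Q.ord_pow, Q.ord_neg_one]
          nlinarith)).2
      rw [← sub_eq_add_neg, ← ha, Q.ord_pow] at h4
      exact h4
    have h4 : Q.ord b = Q.ord a := by
      rw [hab]
      exact (Q.ord_add_eq ha0 h20 (by rw [h2]; exact hα)).2
    have h5 : Q.ord u = 0 := by omega
    have h6 := (ge_der_reg hG x).resolve_left hGx
    rw [h5, h3]
    simp only [neg_zero, Int.toNat_zero, Nat.cast_zero, mul_zero, sub_zero]
    nlinarith
  · -- finite places where `a` is a unit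
    have h1 : 0 ≤ Q.ord b := by
      have h3 : Q.Reg b := by
        rw [hab]
        exact Q.reg_add (Or.inr hα.ge) (Or.inr h2.ge)
      exact (Q.reg_iff hb0).1 h3
    have h3 : 0 ≤ Q.ord u := by omega
    have h4 : (-Q.ord u).toNat = 0 := by omega
    have hx1 : 0 ≤ Q.ord x := by
      by_contra hcon
      push Not at hcon
      have h5 := (Q.ord_add_eq (f := x ^ N) (g := (-1 : L)) (pow_ne_zero _ hx0)
        (neg_ne_zero.2 one_ne_zero) (by
          rw [Q.ord_pow, Q.ord_neg_one]
          nlinarith)).2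
      rw [← sub_eq_add_neg, ← ha, Q.ord_pow, hα] at h5
      nlinarith
    have h6 : 0 ≤ Q.ord (G x) := ((hG x (Or.inr hx1)).resolve_left hGx)
    rw [h4, hα]
    simp only [Nat.cast_zero, mul_zero, neg_zero, zero_add]
    refine mul_nonneg (by positivity) ?_
    by_cases h7 : Q.ord u = 0
    · omega
    · have h8 : 0 < Q.ord b := by omega
      have h9 : Q.ord x = 0 := by
        have h10 : Q.ord (x ^ N) = 0 := by
          have h11 : x ^ N = -1 + b := by
            rw [hb]
            ring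
          rw [h11, (Q.ord_add_eq (f := (-1 : L)) (g := b) (neg_ne_zero.2 one_ne_zero) hb0 (by
            rw [Q.ord_neg_one]
            exact h8)).2, Q.ord_neg_one]
        rw [Q.ord_pow] at h10
        have := mul_eq_zero.1 h10
        rcases this with h | h
        · omega
        · exact h
      have h10 := (ge_der_reg hG u).resolve_left hGu
      rw [h9, mul_zero, zero_add, hα] at hoG
      omega
  · -- the poles of `u`
    have h1 : Q.ord b = 0 := by
      rw [hab, add_comm, (Q.ord_add_eq h20 ha0 (by rw [h2]; exact hα)).2, h2]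
    obtain ⟨p, hp⟩ : ∃ p : ℤ, p = -Q.ord u := ⟨_, rfl⟩
    have hα2 : Q.ord a = 2 * p := by omega
    have hp0 : 1 ≤ p := by omega
    have h3 : ((-Q.ord u).toNat : ℤ) = p := by omega
    have h9 : Q.ord x = 0 := by
      have h10 : Q.ord (x ^ N) = 0 := by
        have h11 : x ^ N = 1 + a := by
          rw [ha]
          ring
        rw [h11, (Q.ord_add_eq (f := (1 : L)) (g := a) one_ne_zero ha0 (by
          rw [Q.ord_one]
          exact hα)).2, Q.ord_one]
      rw [Q.ord_pow] at h10
      have := mul_eq_zero.1 h10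
      rcases this with h | h
      · omega
      · exact h
    -- the order of `G u`
    have h10 : -p - 1 ≤ Q.ord (G u) := by
      have h11 : G u = -(u ^ 2) * G u⁻¹ := by
        have h12 : G (u * u⁻¹) = 0 := by
          rw [mul_inv_cancel₀ hu0, G.map_one_eq_zero]
        rw [G.leibniz, smul_eq_mul, smul_eq_mul] at h12
        have h13 : u * (u * G u⁻¹ + u⁻¹ * G u) = 0 := by rw [h12, mul_zero]
        have h14 : u * (u⁻¹ * G u) = G u := by
          rw [← mul_assoc, mul_inv_cancel₀ hu0, one_mul]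
        linear_combination h13 - h14
      have h12 : G u⁻¹ ≠ 0 := by
        intro h
        apply hGu
        rw [h11, h, mul_zero]
      have h13 := (ge_der_reg hG u⁻¹).resolve_left h12
      rw [Q.ord_inv] at h13
      rw [h11, Q.ord_mul (neg_ne_zero.2 (pow_ne_zero _ hu0)) h12, Q.ord_neg, Q.ord_pow]
      push_cast
      omega
    rw [h9, mul_zero, zero_add, hα2] at hoG
    have h11 : 2 * p - 1 ≤ Q.ord (G x) := by omega
    rw [h3, hα2]
    have h12 : Q.ord (G x) - Q.ord u ≥ 3 * p - 1 := by omega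
    nlinarith

end

end Pool.Agent.U192.SP
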